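import Pool.Agent.H175F.Final
import Pool.Agent.Helper856.Cw.Width

set_option autoImplicit false

/-! For (gem, `P₂+P₃`)-free graphs, well-quasi-ordering by induced subgraphs implies bounded
clique-width. -/

namespace Pool.Agent.Results.MP_7588da_co.ImplicationHolds

open Finset Classical
open Pool.Agent.H175R2 (DT nt on)
open Pool.Agent.H175G

/-- The graph `P₁ + P₄`: the path `0 1 2 3` and the isolated vertex `4`. -/
def P1_P4 : SimpleGraph (Fin 5) :=
  SimpleGraph.fromRel (fun a b : Fin 5 => a.val + 1 = b.val ∧ b.val ≤ 3)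

/-- The gem, i.e. the complement of `P₁ + P₄`. -/
def Gem : SimpleGraph (Fin 5) := P1_P4ᶜ

/-- The graph `P₂ + P₃`: the edge `0 1` and the path `2 3 4`. -/
def P2_P3 : SimpleGraph (Fin 5) :=
  SimpleGraph.fromRel (fun a b : Fin 5 =>
    (a.val = 0 ∧ b.val = 1) ∨ (a.val = 2 ∧ b.val = 3) ∨ (a.val = 3 ∧ b.val = 4))

/-- `G` belongs to the class `C` of all finite (gem, `P₂+P₃`)-free graphs. -/
def InC {V : Type} (G : SimpleGraph V) : Prop :=
  Finite V ∧ ¬ Gem.IsIndContained G ∧ ¬ P2_P3.IsIndContained G

/-- The class `C` is well-quasi-ordered by the induced subgraph relation: there is no infinite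
sequence of graphs of `C` none of which is an induced subgraph of another. -/
def CWellQuasiOrdered : Prop :=
  ¬ ∃ (V : ℕ → Type) (G : ∀ n, SimpleGraph (V n)), (∀ n, InC (G n)) ∧
    ∀ i j, i ≠ j → ¬ (G i).IsIndContained (G j)

/-- The class `C` has bounded clique-width. -/
def CBoundedCliqueWidth : Prop :=
  ∃ c : ℕ, ∀ (V : Type) (G : SimpleGraph V), InC G → Pool.Agent.Helper856.Cw.cliqueWidth G ≤ c

theorem cwBuilt_tr {k : ℕ} {V : Type} {G : SimpleGraph V} {l : V → Fin k}
    (h : Pool.Agent.H175R2.CwBuilt k V G l) : Pool.Agent.Helper856.Cw.CwBuilt k V G l := by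
  induction h with
  | single i => exact .single i
  | union V W G H l m _ _ ih1 ih2 => exact .union V W G H l m ih1 ih2
  | join V G l i j hij _ ih => exact .join V G l i j hij ih
  | relabel V G l i j _ ih => exact .relabel V G l i j ih

theorem cw_le_of_dt {V : Type} [Fintype V] {G : SimpleGraph V} {K : ℕ} (h : DT G K univ univ) :
    Pool.Agent.Helper856.Cw.cliqueWidth G ≤ 3 * (K + 1) := by
  obtain ⟨W, G', l, h1, h2⟩ := Pool.Agent.H175R2.cwLE_of_dt h
  exact Nat.sInf_le ⟨W, G', l, cwBuilt_tr h1, h2⟩

/-- bounded clique-width of (gem, `P₂+P₃`)-free graphs -/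
theorem cw_bound (h : MainStmt) : CBoundedCliqueWidth := by
  obtain ⟨K, hK⟩ := h
  refine ⟨3 * (K + 1), fun V G hG => ?_⟩
  obtain ⟨hfin, hG⟩ := hG
  have : Fintype V := Fintype.ofFinite V
  rcases isEmpty_or_nonempty V with hV | hV
  · unfold Pool.Agent.Helper856.Cw.cliqueWidth
    by_cases hn : ∃ k, Pool.Agent.Helper856.Cw.CwLE G k
    · obtain ⟨k, W, G', l, hb, ⟨e⟩⟩ := hn
      exfalso
      have hW : Nonempty W := by
        clear e
        induction hb with
        | single i => exact ⟨()⟩
        | union V W G H l m _ _ ih1 ih2 => exact ih1.map Sum.inl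
        | join V G l i j hij _ ih => exact ih
        | relabel V G l i j _ ih => exact ih
      exact hV.false (e.symm hW.some)
    · have : {k | Pool.Agent.Helper856.Cw.CwLE G k} = ∅ := by
        ext k; simp only [Set.mem_setOf_eq, Set.mem_empty_iff_false, iff_false]
        exact fun h => hn ⟨k, h⟩
      rw [this]; simp
  · refine cw_le_of_dt (hK V G (noGem_of ?_) (noP23_of ?_) univ Finset.univ_nonempty)
    · exact not_nonempty_iff.1 hG.1
    · exact not_nonempty_iff.1 hG.2

/-- If the class `C` of all (gem, `P₂+P₃`)-free graphs is well-quasi-ordered by the induced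
subgraph relation, then it has bounded clique-width. -/
theorem result : CWellQuasiOrdered → CBoundedCliqueWidth :=
  fun _ => cw_bound main_stmt

end Pool.Agent.Results.MP_7588da_co.ImplicationHolds
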